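import Pool.Agent.Helper49.TP.StG

set_option autoImplicit false

namespace Pool.Agent.Helper60.TP

open Finset Pool.Agent.Helper49.TP Pool.Agent.Helper93.IA

/-- The inequality for one group element. -/
private lemma flo_one (F M ms b c fb fc : ℝ) (P : Prop) [Decidable P] (_hF : 0 ≤ F)
    (hM : M = max ms 0) (hb : 0 ≤ b) (hc : 0 ≤ c) (hfb : 0 ≤ fb) (hfc : 0 ≤ fc)
    (hfb' : fb ≤ F) (hfc' : fc ≤ F) (h : ¬ P → ms ≤ b + c) :
    M * (fb + fc - F) - M * F * (if P then 1 else 0) ≤ b * fb + c * fc := by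
  have hM0 : 0 ≤ M := by rw [hM]; exact le_max_right _ _
  by_cases hP : P
  · rw [if_pos hP]
    have h1 : 0 ≤ b * fb := mul_nonneg hb hfb
    have h2 : 0 ≤ c * fc := mul_nonneg hc hfc
    have h3 : 0 ≤ M * (2 * F - fb - fc) := mul_nonneg hM0 (by linarith)
    nlinarith
  · rw [if_neg hP, mul_zero, sub_zero]
    have hbc : M ≤ b + c := by
      rw [hM]
      exact max_le (h hP) (add_nonneg hb hc)
    rcases le_total fb fc with hh | hh
    · have h1 : c * fb ≤ c * fc := mul_le_mul_of_nonneg_left hh hc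
      have h2 : M * fb ≤ (b + c) * fb := mul_le_mul_of_nonneg_right hbc hfb
      have h3 : M * fc ≤ M * F := mul_le_mul_of_nonneg_left hfc' hM0
      nlinarith
    · have h1 : b * fc ≤ b * fb := mul_le_mul_of_nonneg_left hh hb
      have h2 : M * fc ≤ (b + c) * fc := mul_le_mul_of_nonneg_right hbc hfc
      have h3 : M * fb ≤ M * F := mul_le_mul_of_nonneg_left hfb' hM0
      nlinarith

theorem hFLO : StFLO := by
  classical
  intro hFUN Γ _ _ n π1 π2 F Λ L FB FC b c' m r0 c0 bad T hn ht1 ht2 hΛ hF hL hFB hFC hsB hsC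
    hb hc hbad hm hT
  have hn0 : (0 : ℝ) < n := by exact_mod_cast hn
  have hG0 : (0 : ℝ) < Fintype.card Γ := by exact_mod_cast Fintype.card_pos
  -- one symbol
  have key : ∀ s, (Fintype.card Γ : ℝ) * (∑ c, b c s * FB c s + ∑ r, c' s r * FC s r) ≥
      n * (max (m s) 0 * (Fintype.card Γ * (2 - F)) -
        max (m s) 0 * F * ∑ g, (if s ∈ bad g then (1 : ℝ) else 0)) := by
    intro s
    have e1 := hFUN Γ n π2 ht2 c0 (fun c => b c s * FB c s)
    have e2 := hFUN Γ n π1 ht1 r0 (fun r => c' s r * FC s r)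
    have e3 := hFUN Γ n π2 ht2 c0 (fun c => FB c s)
    have e4 := hFUN Γ n π1 ht1 r0 (fun r => FC s r)
    rw [hsB s] at e3
    rw [hsC s] at e4
    have e5 : ∑ g, FB (π2 g c0) s = Fintype.card Γ := by
      have : (n : ℝ) * ∑ g, FB (π2 g c0) s = n * Fintype.card Γ := by rw [e3]; ring
      exact mul_left_cancel₀ hn0.ne' this
    have e6 : ∑ g, FC s (π1 g r0) = Fintype.card Γ := by
      have : (n : ℝ) * ∑ g, FC s (π1 g r0) = n * Fintype.card Γ := by rw [e4]; ring
      exact mul_left_cancel₀ hn0.ne' this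
    have hs : ∑ g, (max (m s) 0 * (FB (π2 g c0) s + FC s (π1 g r0) - F) -
        max (m s) 0 * F * (if s ∈ bad g then (1 : ℝ) else 0)) ≤
        ∑ g, (b (π2 g c0) s * FB (π2 g c0) s + c' s (π1 g r0) * FC s (π1 g r0)) := by
      refine Finset.sum_le_sum fun g _ => ?_
      exact flo_one F _ (m s) _ _ _ _ (s ∈ bad g) hF rfl (hb _ _) (hc _ _) (hFB _ _).1
        (hFC _ _).1 (hFB _ _).2 (hFC _ _).2 (fun h => hm g s h)
    rw [Finset.sum_sub_distrib, ← Finset.mul_sum, ← Finset.mul_sum, Finset.sum_sub_distrib,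
      Finset.sum_add_distrib, e5, e6, Finset.sum_const, Finset.card_univ, nsmul_eq_mul,
      Finset.sum_add_distrib] at hs
    have e7 : (Fintype.card Γ : ℝ) * (∑ c, b c s * FB c s + ∑ r, c' s r * FC s r) =
        n * (∑ g, b (π2 g c0) s * FB (π2 g c0) s + ∑ g, c' s (π1 g r0) * FC s (π1 g r0)) := by
      rw [mul_add, mul_add, e1, e2]
    rw [e7]
    refine mul_le_mul_of_nonneg_left ?_ hn0.le
    refine le_trans (le_of_eq ?_) hs
    ring
  -- sum over the symbols
  have hN : ∑ s ∈ T, ∑ g, (if s ∈ bad g then (1 : ℝ) else 0) ≤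
      Fintype.card Γ * (n * F / Λ) := by
    calc ∑ s ∈ T, ∑ g, (if s ∈ bad g then (1 : ℝ) else 0)
        ≤ ∑ s, ∑ g, (if s ∈ bad g then (1 : ℝ) else 0) := by
          refine Finset.sum_le_sum_of_subset_of_nonneg (Finset.subset_univ _) fun s _ _ => ?_
          refine Finset.sum_nonneg fun g _ => ?_
          split_ifs <;> norm_num
      _ = ∑ g, ∑ s, (if s ∈ bad g then (1 : ℝ) else 0) := Finset.sum_comm
      _ = ∑ g, ((bad g).card : ℝ) := by
          refine Finset.sum_congr rfl fun g _ => ?_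
          rw [Finset.sum_boole]
          congr 2
          ext s
          simp
      _ ≤ ∑ _g : Γ, (n * F / Λ) := Finset.sum_le_sum fun g _ => hbad g
      _ = Fintype.card Γ * (n * F / Λ) := by
          rw [Finset.sum_const, Finset.card_univ, nsmul_eq_mul]
  have hsum : ∑ s ∈ T, (n * (max (m s) 0 * (Fintype.card Γ * (2 - F))) -
        n * F * L * ∑ g, (if s ∈ bad g then (1 : ℝ) else 0)) ≤
      ∑ s ∈ T, (Fintype.card Γ : ℝ) * (∑ c, b c s * FB c s + ∑ r, c' s r * FC s r) := by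
    refine Finset.sum_le_sum fun s hs => ?_
    refine le_trans ?_ (key s)
    have h1 : (0 : ℝ) ≤ ∑ g, (if s ∈ bad g then (1 : ℝ) else 0) := by
      refine Finset.sum_nonneg fun g _ => ?_
      split_ifs <;> norm_num
    have h2 : max (m s) 0 ≤ L := max_le (hT s hs) hL
    have h3 : max (m s) 0 * (n * F * ∑ g, (if s ∈ bad g then (1 : ℝ) else 0)) ≤
        L * (n * F * ∑ g, (if s ∈ bad g then (1 : ℝ) else 0)) :=
      mul_le_mul_of_nonneg_right h2 (mul_nonneg (mul_nonneg hn0.le hF) h1)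
    nlinarith
  rw [Finset.sum_sub_distrib, ← Finset.mul_sum, ← Finset.mul_sum, ← Finset.mul_sum,
    ← Finset.sum_mul] at hsum
  have h4 : n * F * L * ∑ s ∈ T, ∑ g, (if s ∈ bad g then (1 : ℝ) else 0) ≤
      n * F * L * (Fintype.card Γ * (n * F / Λ)) :=
    mul_le_mul_of_nonneg_left hN (mul_nonneg (mul_nonneg hn0.le hF) hL)
  have h5 : (Fintype.card Γ : ℝ) * (n * (2 - F) * ∑ s ∈ T, max (m s) 0 -
      (n : ℝ) ^ 2 * F ^ 2 * L / Λ) ≤
      Fintype.card Γ * ∑ s ∈ T, (∑ c, b c s * FB c s + ∑ r, c' s r * FC s r) := by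
    have e8 : (Fintype.card Γ : ℝ) * (n * (2 - F) * ∑ s ∈ T, max (m s) 0 -
      (n : ℝ) ^ 2 * F ^ 2 * L / Λ) = n * ((∑ s ∈ T, max (m s) 0) * (Fintype.card Γ * (2 - F))) -
        n * F * L * (Fintype.card Γ * (n * F / Λ)) := by
      ring
    rw [e8]
    linarith
  exact le_of_mul_le_mul_left h5 hG0

end Pool.Agent.Helper60.TP
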